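import Pool.Agent.J6H4.Supra.Products

/-! # MP_56153a_al: when is the direct product of two groups supramenable?

`Supramenable G` and `ExponentiallyBounded G` (from the files `J6H4/Supra/Products` and
`J6H4/Supra/Growth`) are the definitions of the problem files: every nonempty subset has measure
one for some finitely additive left-invariant `[0,∞]`-valued measure on all subsets, respectively
`γ_S(n)^(1/n) → 1` for every finite subset `S`.

1. `G × H` is supramenable if and only if `G` and `H` are supramenable and one of them is
   exponentially bounded.
2. `G × G` is supramenable if and only if `G` is exponentially bounded.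
3. The groups whose product with every supramenable group is supramenable are exactly the
   exponentially bounded groups.
4. Q1 holds if and only if every supramenable group is exponentially bounded. -/

set_option autoImplicit false

universe u

namespace Pool.Agent.Results.MP_56153a_al.ProductCharacterization

open Pool.Agent.J6H4.Supra (Supramenable ExponentiallyBounded)

theorem result :
    (∀ (G H : Type u) [Group G] [Group H],
      Supramenable (G × H) ↔
        Supramenable G ∧ Supramenable H ∧ (ExponentiallyBounded G ∨ ExponentiallyBounded H)) ∧
    (∀ (G : Type u) [Group G], Supramenable (G × G) ↔ ExponentiallyBounded G) ∧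
    (∀ (G : Type u) [Group G],
      (∀ (H : Type u) [Group H], Supramenable H → Supramenable (G × H)) ↔
        ExponentiallyBounded G) ∧
    ((∀ (G H : Type u) [Group G] [Group H],
        Supramenable G → Supramenable H → Supramenable (G × H)) ↔
      ∀ (G : Type u) [Group G], Supramenable G → ExponentiallyBounded G) := by
  refine ⟨fun G H _ _ => Pool.Agent.J6H4.Supra.supramenable_prod_iff,
    fun G _ => Pool.Agent.J6H4.Supra.supramenable_square_iff, ?_, ?_⟩
  · intro G _
    constructor
    · intro h
      have h1 : Supramenable (G × PUnit.{u + 1}) :=
        h _ Pool.Agent.J6H4.Supra.supramenable_of_subsingleton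
      have h2 : Supramenable G :=
        Pool.Agent.J6H4.Supra.supramenable_of_surjective (MonoidHom.fst G PUnit.{u + 1})
          Prod.fst_surjective h1
      exact Pool.Agent.J6H4.Supra.supramenable_square_iff.1 (h G h2)
    · intro h H _ hH
      exact Pool.Agent.J6H4.Supra.supramenable_prod_left h hH
  · constructor
    · intro h G _ hG
      exact Pool.Agent.J6H4.Supra.supramenable_square_iff.1 (h G G hG hG)
    · intro h G H _ _ hG hH
      exact Pool.Agent.J6H4.Supra.supramenable_prod_right hG (h H hH)

end Pool.Agent.Results.MP_56153a_al.ProductCharacterization
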